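import Pool.Agent.LPW.StmtsF

/-! # Squad LPW, row UNT: polynomials of norm `± 1` are units modulo `f` -/

set_option autoImplicit false

open Polynomial

namespace Pool.Agent.LPW.H30

theorem unt : UntStmt := by
  intro R _ f w g hg h0
  obtain ⟨h, hh⟩ := hg
  refine ⟨- C (g.coeff 0) * (g.divX).comp w, - C (g.coeff 0) * h, ?_⟩
  have h1 : g.comp w = (g.divX).comp w * w + C (g.coeff 0) := by
    conv_lhs => rw [← Polynomial.divX_mul_X_add g]
    simp
  have h2 : C (g.coeff 0) * C (g.coeff 0) = (1 : R[X]) := by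
    rw [← C_mul, ← sq, h0, C_1]
  have h3 : (g.divX).comp w * w = f * h - C (g.coeff 0) := by
    rw [← hh, h1]
    ring
  calc w * (- C (g.coeff 0) * (g.divX).comp w) = - C (g.coeff 0) * ((g.divX).comp w * w) := by
        ring
    _ = - C (g.coeff 0) * (f * h - C (g.coeff 0)) := by rw [h3]
    _ = C (g.coeff 0) * C (g.coeff 0) + f * (- C (g.coeff 0) * h) := by ring
    _ = 1 + f * (- C (g.coeff 0) * h) := by rw [h2]

end Pool.Agent.LPW.H30
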